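import Pool.Agent.Q83.SG.Stm

/-! Project SG (helper83), job GIBL: existence of Gibbs states as limits. Adapted from the files
`Pool/Agent/H47R2/EA/GIBBSE.lean` and `BASIC.lean`. -/

set_option autoImplicit false

open MeasureTheory Filter Topology
open scoped ENNReal BoundedContinuousFunction
open Pool.Agent.Q83.SG

namespace Pool.Agent.Q198.SG.G

variable {m : ℕ}

/-- partition function -/
noncomputable def Zp (J : Bond m → ℝ) (Λ : Finset (Site m)) (ω : Site m → Bool) : ℝ :=
  ∑ η : Λ → Bool, Real.exp (pair J Λ (spin (glue Λ η ω)))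

/-- finite volume averages -/
noncomputable def gE (J : Bond m → ℝ) (Λ : Finset (Site m)) (ω : Site m → Bool)
    (f : (Site m → Bool) → ℝ) : ℝ :=
  (∑ η : Λ → Bool, Real.exp (pair J Λ (spin (glue Λ η ω))) * f (glue Λ η ω)) / Zp J Λ ω

lemma fv_eq (J : Bond m → ℝ) (Λ : Finset (Site m)) (ω : Site m → Bool)
    (A : Set (Site m → Bool)) : fv J Λ ω A = gE J Λ ω (A.indicator fun _ => (1 : ℝ)) := rfl

theorem continuous_sg : Continuous sg := continuous_of_discreteTopology

theorem continuous_glue (Λ : Finset (Site m)) (η : Λ → Bool) :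
    Continuous (fun ω : Site m → Bool => glue Λ η ω) := by
  apply continuous_pi
  intro x
  unfold glue
  by_cases h : x ∈ Λ
  · simp only [h, dif_pos]
    exact continuous_const
  · simp only [h, dif_neg, not_false_eq_true]
    exact continuous_apply x

theorem continuous_ham (J : Bond m → ℝ) (Λ : Finset (Site m)) :
    Continuous (fun σ : Site m → Bool => pair J Λ (spin σ)) := by
  unfold pair spin
  refine continuous_finset_sum _ fun b _ => ?_
  exact continuous_const.mul ((continuous_sg.comp (continuous_apply _)).mul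
    (continuous_sg.comp (continuous_apply _)))

theorem continuous_wexp (J : Bond m → ℝ) (Λ : Finset (Site m)) (η : Λ → Bool) :
    Continuous (fun ω : Site m → Bool => Real.exp (pair J Λ (spin (glue Λ η ω)))) :=
  Real.continuous_exp.comp ((continuous_ham J Λ).comp (continuous_glue Λ η))

theorem continuous_Zp (J : Bond m → ℝ) (Λ : Finset (Site m)) :
    Continuous (fun ω : Site m → Bool => Zp J Λ ω) := by
  unfold Zp
  exact continuous_finset_sum _ fun η _ => continuous_wexp J Λ η

theorem Zp_pos (J : Bond m → ℝ) (Λ : Finset (Site m)) (ω : Site m → Bool) :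
    0 < Zp J Λ ω := by
  unfold Zp
  exact Finset.sum_pos (fun η _ => Real.exp_pos _) Finset.univ_nonempty

/-- normalised weights -/
noncomputable def ww (J : Bond m → ℝ) (Λ : Finset (Site m)) (η : Λ → Bool)
    (ω : Site m → Bool) : ℝ := Real.exp (pair J Λ (spin (glue Λ η ω))) / Zp J Λ ω

theorem continuous_ww (J : Bond m → ℝ) (Λ : Finset (Site m)) (η : Λ → Bool) :
    Continuous (ww J Λ η) :=
  (continuous_wexp J Λ η).div (continuous_Zp J Λ) fun ω => (Zp_pos J Λ ω).ne'

theorem ww_nonneg (J : Bond m → ℝ) (Λ : Finset (Site m)) (η : Λ → Bool)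
    (ω : Site m → Bool) : 0 ≤ ww J Λ η ω :=
  div_nonneg (Real.exp_pos _).le (Zp_pos J Λ ω).le

theorem ww_sum (J : Bond m → ℝ) (Λ : Finset (Site m)) (ω : Site m → Bool) :
    ∑ η, ww J Λ η ω = 1 := by
  unfold ww
  rw [← Finset.sum_div]
  exact div_self (Zp_pos J Λ ω).ne'

theorem ww_le_one (J : Bond m → ℝ) (Λ : Finset (Site m)) (η : Λ → Bool)
    (ω : Site m → Bool) : ww J Λ η ω ≤ 1 := by
  rw [← ww_sum J Λ ω]
  exact Finset.single_le_sum (fun η _ => ww_nonneg J Λ η ω) (Finset.mem_univ η)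

theorem gE_eq (J : Bond m → ℝ) (Λ : Finset (Site m)) (ω : Site m → Bool)
    (f : (Site m → Bool) → ℝ) :
    gE J Λ ω f = ∑ η, ww J Λ η ω * f (glue Λ η ω) := by
  unfold gE ww
  rw [Finset.sum_div]
  exact Finset.sum_congr rfl fun η _ => by ring

theorem continuous_gE (J : Bond m → ℝ) (Λ : Finset (Site m))
    (f : (Site m → Bool) → ℝ) (hf : Continuous f) :
    Continuous (fun ω => gE J Λ ω f) := by
  simp only [gE_eq]
  exact continuous_finset_sum _ fun η _ =>
    (continuous_ww J Λ η).mul (hf.comp (continuous_glue Λ η))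

/-- the Gibbs kernel applied to a measure -/
noncomputable def KK (J : Bond m → ℝ) (Λ : Finset (Site m))
    (π : Measure (Site m → Bool)) : Measure (Site m → Bool) :=
  ∑ η : Λ → Bool, (π.withDensity fun ω => ENNReal.ofReal (ww J Λ η ω)).map (glue Λ η)

theorem integral_KK (J : Bond m → ℝ) (Λ : Finset (Site m))
    (π : Measure (Site m → Bool)) [IsProbabilityMeasure π]
    (f : (Site m → Bool) → ℝ) (hf : Measurable f) (C : ℝ) (hC : ∀ x, |f x| ≤ C) :
    ∫ ω, f ω ∂(KK J Λ π) = ∫ ω, gE J Λ ω f ∂π := by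
  have hg : ∀ η : Λ → Bool, Measurable (glue Λ η) := fun η => (continuous_glue Λ η).measurable
  have hw : ∀ η : Λ → Bool, Measurable (fun ω => ENNReal.ofReal (ww J Λ η ω)) :=
    fun η => (continuous_ww J Λ η).measurable.ennreal_ofReal
  have hfin : ∀ η : Λ → Bool,
      IsFiniteMeasure (π.withDensity fun ω => ENNReal.ofReal (ww J Λ η ω)) := by
    intro η
    apply isFiniteMeasure_withDensity
    have : ∫⁻ ω, ENNReal.ofReal (ww J Λ η ω) ∂π ≤ ∫⁻ _, 1 ∂π := by
      apply lintegral_mono
      intro ω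
      calc ENNReal.ofReal (ww J Λ η ω) ≤ ENNReal.ofReal 1 :=
            ENNReal.ofReal_le_ofReal (ww_le_one J Λ η ω)
        _ = 1 := ENNReal.ofReal_one
    refine ne_top_of_le_ne_top ?_ this
    simp
  have hint : ∀ η : Λ → Bool,
      Integrable f ((π.withDensity fun ω => ENNReal.ofReal (ww J Λ η ω)).map (glue Λ η)) := by
    intro η
    have := hfin η
    have h2 : IsFiniteMeasure
        ((π.withDensity fun ω => ENNReal.ofReal (ww J Λ η ω)).map (glue Λ η)) :=
      Measure.isFiniteMeasure_map _ _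
    exact Integrable.of_bound hf.aestronglyMeasurable C (ae_of_all _ hC)
  unfold KK
  rw [integral_finset_sum_measure fun η _ => hint η]
  have h1 : ∀ η : Λ → Bool,
      ∫ ω, f ω ∂((π.withDensity fun ω => ENNReal.ofReal (ww J Λ η ω)).map (glue Λ η)) =
        ∫ ω, ww J Λ η ω * f (glue Λ η ω) ∂π := by
    intro η
    rw [integral_map (hg η).aemeasurable hf.aestronglyMeasurable,
      integral_withDensity_eq_integral_toReal_smul (hw η)
        (ae_of_all _ fun ω => ENNReal.ofReal_lt_top)]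
    refine integral_congr_ae (ae_of_all _ fun ω => ?_)
    simp only [smul_eq_mul]
    rw [ENNReal.toReal_ofReal (ww_nonneg J Λ η ω)]
  rw [Finset.sum_congr rfl fun η _ => h1 η, ← integral_finset_sum]
  · exact integral_congr_ae (ae_of_all _ fun ω => (gE_eq J Λ ω f).symm)
  · intro η _
    refine Integrable.of_bound ?_ C (ae_of_all _ fun ω => ?_)
    · exact ((continuous_ww J Λ η).measurable.mul (hf.comp (hg η))).aestronglyMeasurable
    · rw [Real.norm_eq_abs, abs_mul, abs_of_nonneg (ww_nonneg J Λ η ω)]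
      calc ww J Λ η ω * |f (glue Λ η ω)| ≤ 1 * |f (glue Λ η ω)| :=
            mul_le_mul_of_nonneg_right (ww_le_one J Λ η ω) (abs_nonneg _)
        _ ≤ C := by rw [one_mul]; exact hC _

theorem prob_KK (J : Bond m → ℝ) (Λ : Finset (Site m))
    (π : Measure (Site m → Bool)) [IsProbabilityMeasure π] :
    IsProbabilityMeasure (KK J Λ π) := by
  constructor
  have hg : ∀ η : Λ → Bool, Measurable (glue Λ η) := fun η => (continuous_glue Λ η).measurable
  unfold KK
  rw [Measure.finset_sum_apply]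
  have h1 : ∀ η : Λ → Bool,
      ((π.withDensity fun ω => ENNReal.ofReal (ww J Λ η ω)).map (glue Λ η)) Set.univ =
        ∫⁻ ω, ENNReal.ofReal (ww J Λ η ω) ∂π := by
    intro η
    rw [Measure.map_apply (hg η) MeasurableSet.univ, Set.preimage_univ,
      withDensity_apply _ MeasurableSet.univ, Measure.restrict_univ]
  rw [Finset.sum_congr rfl fun η _ => h1 η, ← lintegral_finset_sum]
  · have h2 : ∀ ω, ∑ η, ENNReal.ofReal (ww J Λ η ω) = 1 := by
      intro ω
      rw [← ENNReal.ofReal_sum_of_nonneg fun η _ => ww_nonneg J Λ η ω, ww_sum,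
        ENNReal.ofReal_one]
    simp only [h2]
    simp
  · intro η _
    exact (continuous_ww J Λ η).measurable.ennreal_ofReal

theorem integral_KK_dirac (J : Bond m → ℝ) (Λ : Finset (Site m)) (ω₀ : Site m → Bool)
    (f : (Site m → Bool) → ℝ) (hf : Measurable f) (C : ℝ) (hC : ∀ x, |f x| ≤ C) :
    ∫ ω, f ω ∂(KK J Λ (Measure.dirac ω₀)) = gE J Λ ω₀ f := by
  rw [integral_KK J Λ _ f hf C hC, integral_dirac]

/-! ### consistency -/

theorem mem_bonds {Λ : Finset (Site m)} {b : Bond m} : b ∈ bonds Λ ↔ b.1 ∈ Λ ∨ far b ∈ Λ := by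
  classical
  unfold bonds
  simp only [Finset.mem_biUnion, Finset.mem_univ, true_and, Finset.mem_insert,
    Finset.mem_singleton]
  constructor
  · rintro ⟨v, hv, a, h | h⟩
    · left; rw [h]; exact hv
    · right
      have : far b = v := by rw [h]; simp [far]
      rw [this]; exact hv
  · rintro (h | h)
    · exact ⟨b.1, h, b.2, Or.inl rfl⟩
    · refine ⟨far b, h, b.2, Or.inr ?_⟩
      simp [far]

theorem ham_diff (J : Bond m → ℝ) {Λ' Λ : Finset (Site m)} (h : Λ' ⊆ Λ) (σ σ' : Site m → Bool)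
    (hs : ∀ z, z ∉ Λ' → σ z = σ' z) :
    pair J Λ (spin σ) - pair J Λ' (spin σ) = pair J Λ (spin σ') - pair J Λ' (spin σ') := by
  classical
  have hsub : bonds Λ' ⊆ bonds Λ := by
    intro b hb
    rw [mem_bonds] at hb ⊢
    exact hb.imp (fun h1 => h h1) fun h1 => h h1
  unfold pair
  have h1 := Finset.sum_sdiff (f := fun b => J b * (spin σ b.1 * spin σ (far b))) hsub
  have h2 := Finset.sum_sdiff (f := fun b => J b * (spin σ' b.1 * spin σ' (far b))) hsub
  have h3 : ∑ b ∈ bonds Λ \ bonds Λ', J b * (spin σ b.1 * spin σ (far b)) =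
      ∑ b ∈ bonds Λ \ bonds Λ', J b * (spin σ' b.1 * spin σ' (far b)) := by
    apply Finset.sum_congr rfl
    intro b hb
    rw [Finset.mem_sdiff] at hb
    have hb2 := hb.2
    rw [mem_bonds, not_or] at hb2
    simp only [spin]
    rw [hs _ hb2.1, hs _ hb2.2]
  linarith

theorem glue_mem {Λ : Finset (Site m)} (η : Λ → Bool) (ω : Site m → Bool) {x : Site m}
    (h : x ∈ Λ) : glue Λ η ω x = η ⟨x, h⟩ := by
  unfold glue
  rw [dif_pos h]

theorem glue_not_mem {Λ : Finset (Site m)} (η : Λ → Bool) (ω : Site m → Bool) {x : Site m}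
    (h : x ∉ Λ) : glue Λ η ω x = ω x := by
  unfold glue
  rw [dif_neg h]

theorem glue_congr {Λ : Finset (Site m)} (η : Λ → Bool) (ω ω' : Site m → Bool)
    (h : ∀ z, z ∉ Λ → ω z = ω' z) : glue Λ η ω = glue Λ η ω' := by
  funext z
  by_cases hz : z ∈ Λ
  · rw [glue_mem η ω hz, glue_mem η ω' hz]
  · rw [glue_not_mem η ω hz, glue_not_mem η ω' hz, h z hz]

theorem Zp_congr (J : Bond m → ℝ) (Λ : Finset (Site m)) (ω ω' : Site m → Bool)
    (h : ∀ z, z ∉ Λ → ω z = ω' z) : Zp J Λ ω = Zp J Λ ω' := by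
  unfold Zp
  apply Finset.sum_congr rfl
  intro η _
  rw [glue_congr η ω ω' h]

section consistency

variable {Λ Λ' : Finset (Site m)} (hsub : Λ' ⊆ Λ)

open Classical in
/-- replace the values on the smaller set -/
noncomputable def md (η : Λ → Bool) (η' : Λ' → Bool) : Λ → Bool :=
  fun z => if h : z.1 ∈ Λ' then η' ⟨z.1, h⟩ else η z

/-- restriction to the smaller set -/
def rs (hsub : Λ' ⊆ Λ) (η : Λ → Bool) : Λ' → Bool := fun z => η ⟨z.1, hsub z.2⟩

theorem md_md (η : Λ → Bool) (η' : Λ' → Bool) : md (md η η') (rs hsub η) = η := by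
  funext z
  unfold md rs
  by_cases h : z.1 ∈ Λ'
  · rw [dif_pos h]
  · rw [dif_neg h, dif_neg h]

theorem rs_md (η : Λ → Bool) (η' : Λ' → Bool) : rs hsub (md η η') = η' := by
  funext z
  show (if h : z.1 ∈ Λ' then η' ⟨z.1, h⟩ else _) = η' z
  rw [dif_pos z.2]

/-- the involution of pairs -/
noncomputable def swp : Equiv.Perm ((Λ → Bool) × (Λ' → Bool)) :=
  Function.Involutive.toPerm (fun p => (md p.1 p.2, rs hsub p.1)) (by
    rintro ⟨η, η'⟩
    exact Prod.ext (md_md hsub η η') (rs_md hsub η η'))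

include hsub in
theorem glue_md (η : Λ → Bool) (η' : Λ' → Bool) (ω : Site m → Bool) :
    glue Λ (md η η') ω = glue Λ' η' (glue Λ η ω) := by
  funext z
  by_cases hz' : z ∈ Λ'
  · have hz := hsub hz'
    rw [glue_mem _ _ hz, glue_mem _ _ hz']
    unfold md
    rw [dif_pos hz']
  · rw [glue_not_mem _ _ hz']
    by_cases hz : z ∈ Λ
    · rw [glue_mem _ _ hz, glue_mem _ _ hz]
      unfold md
      rw [dif_neg hz']
    · rw [glue_not_mem _ _ hz, glue_not_mem _ _ hz]

theorem glue_rs (η : Λ → Bool) (η' : Λ' → Bool) (ω : Site m → Bool) :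
    glue Λ' (rs hsub η) (glue Λ (md η η') ω) = glue Λ η ω := by
  rw [← glue_md hsub, md_md]

include hsub in
theorem gE_cons (J : Bond m → ℝ) (ω : Site m → Bool) (f : (Site m → Bool) → ℝ) :
    gE J Λ ω f = gE J Λ ω (fun τ => gE J Λ' τ f) := by
  have key : ∑ η : Λ → Bool, Real.exp (pair J Λ (spin (glue Λ η ω))) * f (glue Λ η ω) =
      ∑ η : Λ → Bool, Real.exp (pair J Λ (spin (glue Λ η ω))) * gE J Λ' (glue Λ η ω) f := by
    symm
    let H : (Λ → Bool) × (Λ' → Bool) → ℝ := fun p =>
      Real.exp (pair J Λ (spin (glue Λ p.1 ω))) *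
        (Real.exp (pair J Λ' (spin (glue Λ' p.2 (glue Λ p.1 ω)))) *
          f (glue Λ' p.2 (glue Λ p.1 ω))) / Zp J Λ' (glue Λ p.1 ω)
    have h1 : ∑ η : Λ → Bool, Real.exp (pair J Λ (spin (glue Λ η ω))) *
        gE J Λ' (glue Λ η ω) f = ∑ p : (Λ → Bool) × (Λ' → Bool), H p := by
      rw [Fintype.sum_prod_type]
      apply Finset.sum_congr rfl
      intro η _
      show Real.exp (pair J Λ (spin (glue Λ η ω))) * ((∑ η' : Λ' → Bool, _) / _) = _
      rw [← mul_div_assoc, Finset.mul_sum, Finset.sum_div]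
    rw [h1, ← Equiv.sum_comp (swp hsub) H, Fintype.sum_prod_type]
    apply Finset.sum_congr rfl
    intro η _
    have h2 : ∀ η' : Λ' → Bool, H (swp hsub (η, η')) =
        Real.exp (pair J Λ (spin (glue Λ η ω))) * f (glue Λ η ω) / Zp J Λ' (glue Λ η ω) *
          Real.exp (pair J Λ' (spin (glue Λ' η' (glue Λ η ω)))) := by
      intro η'
      show Real.exp (pair J Λ (spin (glue Λ (md η η') ω))) *
        (Real.exp (pair J Λ' (spin (glue Λ' (rs hsub η) (glue Λ (md η η') ω)))) *
          f (glue Λ' (rs hsub η) (glue Λ (md η η') ω))) /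
          Zp J Λ' (glue Λ (md η η') ω) = _
      rw [glue_rs, glue_md hsub]
      have ho : ∀ z, z ∉ Λ' → glue Λ' η' (glue Λ η ω) z = glue Λ η ω z :=
        fun z hz => glue_not_mem _ _ hz
      rw [Zp_congr J Λ' _ _ ho]
      have h3 := ham_diff J hsub _ _ ho
      have h4 : Real.exp (pair J Λ (spin (glue Λ' η' (glue Λ η ω)))) *
          Real.exp (pair J Λ' (spin (glue Λ η ω))) =
          Real.exp (pair J Λ (spin (glue Λ η ω))) *
            Real.exp (pair J Λ' (spin (glue Λ' η' (glue Λ η ω)))) := by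
        rw [← Real.exp_add, ← Real.exp_add]
        congr 1
        linear_combination h3
      rw [← mul_assoc, h4]
      ring
    rw [Finset.sum_congr rfl (fun η' _ => h2 η'), ← Finset.mul_sum]
    exact div_mul_cancel₀ _ (Zp_pos J Λ' _).ne'
  show (∑ η : Λ → Bool, _) / _ = (∑ η : Λ → Bool, _) / _
  rw [key]

end consistency

lemma box_large (Λ : Finset (Site m)) : ∀ᶠ L in (atTop : Filter ℕ), Λ ⊆ box m L := by
  have h1 : ∀ v ∈ Λ, ∀ᶠ L in (atTop : Filter ℕ), v ∈ box m L := by
    intro v _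
    obtain ⟨x, y⟩ := v
    have hx : ∀ i, ∀ᶠ L : ℕ in atTop, x i ∈ Finset.Icc (-(L : ℤ)) (L : ℤ) := by
      intro i
      filter_upwards [eventually_ge_atTop (x i).natAbs] with L hL
      rw [Finset.mem_Icc]
      omega
    have hy : ∀ i, ∀ᶠ L : ℕ in atTop, y i ∈ Finset.Icc (-(L : ℤ)) (L : ℤ) := by
      intro i
      filter_upwards [eventually_ge_atTop (y i).natAbs] with L hL
      rw [Finset.mem_Icc]
      omega
    filter_upwards [eventually_all.2 hx, eventually_all.2 hy] with L h1 h2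
    unfold box
    rw [Finset.mem_product, Fintype.mem_piFinset, Fintype.mem_piFinset]
    exact ⟨h1, h2⟩
  have h2 := (eventually_all_finset Λ).2 h1
  filter_upwards [h2] with L h v hv
  exact h v hv

end Pool.Agent.Q198.SG.G

namespace Pool.Agent.Q198.SG

open Pool.Agent.Q198.SG.G

theorem t_GIBL : S_GIBL := by
  intro m J A a hA hfr
  classical
  set s : Set ℕ := {L | ∃ ω : Site m → Bool, a ≤ fv J (box m L) ω A} with hs
  have hne : (atTop ⊓ 𝓟 s : Filter ℕ).NeBot := by
    rw [← Filter.frequently_mem_iff_neBot]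
    exact hfr
  let U : Ultrafilter ℕ := Ultrafilter.of (atTop ⊓ 𝓟 s)
  have hUle : (U : Filter ℕ) ≤ atTop ⊓ 𝓟 s := Ultrafilter.of_le _
  have hU : (U : Filter ℕ) ≤ atTop := hUle.trans inf_le_left
  have hUs : ∀ᶠ L in (U : Filter ℕ), L ∈ s := (hUle.trans inf_le_right) (mem_principal_self s)
  have hch : ∀ L : ℕ, ∃ ω : Site m → Bool, L ∈ s → a ≤ fv J (box m L) ω A := by
    intro L
    by_cases h : L ∈ s
    · obtain ⟨ω, hω⟩ := h
      exact ⟨ω, fun _ => hω⟩
    · exact ⟨fun _ => true, fun h' => absurd h' h⟩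
  choose ω₀ hω₀ using hch
  let P : ℕ → ProbabilityMeasure (Site m → Bool) := fun L =>
    ⟨KK J (box m L) (Measure.dirac (ω₀ L)), prob_KK J (box m L) _⟩
  obtain ⟨π, -, hπ⟩ := (isCompact_univ (X := ProbabilityMeasure (Site m → Bool))).ultrafilter_le_nhds
    (U.map P) (by simp)
  have hlim : Tendsto P U (𝓝 π) := hπ
  have hconv : ∀ f : (Site m → Bool) → ℝ, Continuous f →
      Tendsto (fun L => gE J (box m L) (ω₀ L) f) U
        (𝓝 (∫ ω, f ω ∂(π : Measure (Site m → Bool)))) := by
    intro f hf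
    let F : (Site m → Bool) →ᵇ ℝ := BoundedContinuousFunction.mkOfCompact ⟨f, hf⟩
    have h1 := (ProbabilityMeasure.tendsto_iff_forall_integral_tendsto.mp hlim) F
    refine h1.congr fun L => ?_
    exact integral_KK_dirac J (box m L) (ω₀ L) f hf.measurable ‖F‖ fun x => F.norm_coe_le_norm x
  have hinv : ∀ (Λ : Finset (Site m)) (f : (Site m → Bool) → ℝ), Continuous f →
      ∫ ω, gE J Λ ω f ∂(π : Measure (Site m → Bool)) =
        ∫ ω, f ω ∂(π : Measure (Site m → Bool)) := by
    intro Λ f hf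
    have h1 := hconv f hf
    have h2 := hconv (fun ω => gE J Λ ω f) (continuous_gE J Λ f hf)
    refine tendsto_nhds_unique h2 (h1.congr' ?_)
    filter_upwards [hU (box_large Λ)] with L hL
    exact gE_cons hL J (ω₀ L) f
  have hK : ∀ Λ : Finset (Site m), KK J Λ (π : Measure (Site m → Bool)) =
      (π : Measure (Site m → Bool)) := by
    intro Λ
    have := prob_KK J Λ (π : Measure (Site m → Bool))
    haveI : TopologicalSpace.MetrizableSpace (Site m → Bool) :=
      TopologicalSpace.metrizableSpace_of_t3_secondCountable _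
    letI : MetricSpace (Site m → Bool) := TopologicalSpace.metrizableSpaceMetric _
    apply ext_of_forall_integral_eq_of_IsFiniteMeasure
    intro f
    rw [integral_KK J Λ _ f f.continuous.measurable ‖f‖ fun x => f.norm_coe_le_norm x]
    exact hinv Λ f f.continuous
  have hbd : ∀ (B : Set (Site m → Bool)) x, |B.indicator (fun _ => (1 : ℝ)) x| ≤ 1 := by
    intro B x
    by_cases hx : x ∈ B
    · simp [hx]
    · simp [hx]
  have hind : ∀ B : Set (Site m → Bool), MeasurableSet B →
      ∫ ω, B.indicator (fun _ => (1 : ℝ)) ω ∂(π : Measure (Site m → Bool)) =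
        ((π : Measure (Site m → Bool)) B).toReal := by
    intro B hB
    rw [integral_indicator hB]
    simp [Measure.real]
  refine ⟨π, ⟨inferInstance, ?_⟩, ?_⟩
  · intro Λ B hB
    have h1 := integral_KK J Λ (π : Measure (Site m → Bool))
      (B.indicator fun _ => (1 : ℝ)) (measurable_const.indicator hB) 1 (hbd B)
    simp only [fv_eq]
    rw [← h1, hK, hind B hB]
  · rw [← hind A hA.isOpen.measurableSet]
    have hcont : Continuous (A.indicator fun _ => (1 : ℝ)) :=
      continuous_const.indicator (by simp [hA.frontier_eq])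
    refine ge_of_tendsto (hconv _ hcont) ?_
    filter_upwards [hUs] with L hL
    have := hω₀ L hL
    rw [fv_eq] at this
    exact this

end Pool.Agent.Q198.SG
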