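import Pool.Agent.Q83.SG.Stm

/-! Project SG (helper83), job MGF: exponential moments of odd Lipschitz functions. -/

set_option autoImplicit false

open MeasureTheory ProbabilityTheory Filter
open scoped ENNReal NNReal
open Pool.Agent.Q83.SG

namespace Pool.Agent.Q198.SG

/-- one coordinate -/
lemma mgf_one (μ : Measure ℝ) [IsProbabilityMeasure μ] (c : ℝ≥0) (h : HasSubgaussianMGF id c μ)
    (φ : ℝ → ℝ) (hm : Measurable φ) (γ : ℝ) (hγ : 0 < γ)
    (hL : ∀ x y, |φ x - φ y| ≤ γ * |x - y|) (s : ℝ) :
    Integrable φ μ ∧ Integrable (fun x => Real.exp (s * φ x)) μ ∧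
      ∫ x, Real.exp (s * φ x) ∂μ ≤
        Real.exp (c * γ ^ 2 * s ^ 2) * Real.exp (s * ∫ x, φ x ∂μ) := by
  have hexp : ∀ t : ℝ, Integrable (fun x => Real.exp (t * x)) μ := fun t => h.integrable_exp_mul t
  have habs : ∀ t : ℝ, 0 ≤ t → Integrable (fun x => Real.exp (t * |x|)) μ := by
    intro t ht
    refine Integrable.mono' ((hexp t).add (hexp (-t))) ?_ (Eventually.of_forall fun x => ?_)
    · exact (Measurable.aestronglyMeasurable (by fun_prop))
    · rw [Real.norm_of_nonneg (Real.exp_pos _).le]
      simp only [Pi.add_apply]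
      rcases abs_cases x with ⟨hx, -⟩ | ⟨hx, -⟩
      · rw [hx]; have := Real.exp_pos (-t * x); linarith
      · rw [hx]
        have e : t * -x = -t * x := by ring
        rw [e]; have := Real.exp_pos (t * x); linarith
  have hφ : ∀ x, |φ x| ≤ |φ 0| + γ * |x| := by
    intro x
    have h1 := hL x 0
    rw [sub_zero] at h1
    have h2 := abs_sub_abs_le_abs_sub (φ x) (φ 0)
    linarith
  have hφe : ∀ t : ℝ, Integrable (fun x => Real.exp (t * φ x)) μ := by
    intro t
    refine Integrable.mono' ((habs (|t| * γ) (by positivity)).const_mul (Real.exp (|t| * |φ 0|))) ?_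
      (Eventually.of_forall fun x => ?_)
    · exact (Real.measurable_exp.comp (hm.const_mul t)).aestronglyMeasurable
    · rw [Real.norm_of_nonneg (Real.exp_pos _).le, ← Real.exp_add]
      refine Real.exp_le_exp.2 ?_
      have h1 : t * φ x ≤ |t| * |φ x| := by rw [← abs_mul]; exact le_abs_self _
      have h2 := mul_le_mul_of_nonneg_left (hφ x) (abs_nonneg t)
      nlinarith
  have hφi : Integrable φ μ := by
    refine Integrable.mono' ((hφe 1).add (hφe (-1))) hm.aestronglyMeasurable
      (Eventually.of_forall fun x => ?_)
    rw [Real.norm_eq_abs]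
    simp only [Pi.add_apply]
    have h1 := Real.add_one_le_exp (1 * φ x)
    have h2 := Real.add_one_le_exp (-1 * φ x)
    have h3 := Real.exp_pos (1 * φ x)
    have h4 := Real.exp_pos (-1 * φ x)
    rcases abs_cases (φ x) with ⟨hx, -⟩ | ⟨hx, -⟩ <;> rw [hx] <;> linarith
  refine ⟨hφi, hφe s, ?_⟩
  set A := ∫ x, Real.exp (s * φ x) ∂μ with hA
  set B := ∫ x, Real.exp (-s * φ x) ∂μ with hB
  set m := ∫ x, φ x ∂μ with hmd
  have hA0 : 0 ≤ A := integral_nonneg fun x => (Real.exp_pos _).le
  have hJ : Real.exp (-s * m) ≤ B := by
    have h1 := convexOn_exp.map_integral_le (μ := μ) (f := fun x => -s * φ x)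
      Real.continuous_exp.continuousOn isClosed_univ (Eventually.of_forall fun x => Set.mem_univ _)
      (hφi.const_mul (-s)) (hφe (-s))
    rw [integral_const_mul] at h1
    exact h1
  -- the product
  have hM : ∀ t : ℝ, ∫ x, Real.exp (t * x) ∂μ ≤ Real.exp (c * t ^ 2 / 2) := fun t => h.mgf_le t
  have hM0 : ∀ t : ℝ, 0 ≤ ∫ x, Real.exp (t * x) ∂μ := fun t =>
    integral_nonneg fun x => (Real.exp_pos _).le
  have e1 : ∫ p : ℝ × ℝ, Real.exp (s * φ p.1) * Real.exp (-s * φ p.2) ∂(μ.prod μ) = A * B :=
    integral_prod_mul (fun x => Real.exp (s * φ x)) (fun x => Real.exp (-s * φ x))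
  have e2 : ∫ p : ℝ × ℝ, Real.exp (-s * φ p.1) * Real.exp (s * φ p.2) ∂(μ.prod μ) = B * A :=
    integral_prod_mul (fun x => Real.exp (-s * φ x)) (fun x => Real.exp (s * φ x))
  have e3 : ∫ p : ℝ × ℝ, Real.exp (s * γ * p.1) * Real.exp (-(s * γ) * p.2) ∂(μ.prod μ) =
      (∫ x, Real.exp (s * γ * x) ∂μ) * ∫ x, Real.exp (-(s * γ) * x) ∂μ :=
    integral_prod_mul (fun x => Real.exp (s * γ * x)) (fun x => Real.exp (-(s * γ) * x))
  have e4 : ∫ p : ℝ × ℝ, Real.exp (-(s * γ) * p.1) * Real.exp (s * γ * p.2) ∂(μ.prod μ) =
      (∫ x, Real.exp (-(s * γ) * x) ∂μ) * ∫ x, Real.exp (s * γ * x) ∂μ :=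
    integral_prod_mul (fun x => Real.exp (-(s * γ) * x)) (fun x => Real.exp (s * γ * x))
  have i1 : Integrable (fun p : ℝ × ℝ => Real.exp (s * φ p.1) * Real.exp (-s * φ p.2))
      (μ.prod μ) := (hφe s).mul_prod (hφe (-s))
  have i2 : Integrable (fun p : ℝ × ℝ => Real.exp (-s * φ p.1) * Real.exp (s * φ p.2))
      (μ.prod μ) := (hφe (-s)).mul_prod (hφe s)
  have i3 : Integrable (fun p : ℝ × ℝ => Real.exp (s * γ * p.1) * Real.exp (-(s * γ) * p.2))
      (μ.prod μ) := (hexp (s * γ)).mul_prod (hexp (-(s * γ)))
  have i4 : Integrable (fun p : ℝ × ℝ => Real.exp (-(s * γ) * p.1) * Real.exp (s * γ * p.2))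
      (μ.prod μ) := (hexp (-(s * γ))).mul_prod (hexp (s * γ))
  have hmono := integral_mono (i1.add i2) (i3.add i4) (fun p => by
    simp only [Pi.add_apply]
    rw [← Real.exp_add, ← Real.exp_add, ← Real.exp_add, ← Real.exp_add]
    have k1 : s * φ p.1 + -s * φ p.2 = s * (φ p.1 - φ p.2) := by ring
    have k2 : -s * φ p.1 + s * φ p.2 = -(s * (φ p.1 - φ p.2)) := by ring
    have k3 : s * γ * p.1 + -(s * γ) * p.2 = s * γ * (p.1 - p.2) := by ring
    have k4 : -(s * γ) * p.1 + s * γ * p.2 = -(s * γ * (p.1 - p.2)) := by ring
    rw [k1, k2, k3, k4]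
    have k5 := (Real.cosh_le_cosh (x := s * (φ p.1 - φ p.2)) (y := s * γ * (p.1 - p.2))).2 (by
      rw [abs_mul, abs_mul, abs_mul, abs_of_pos hγ, mul_assoc]
      exact mul_le_mul_of_nonneg_left (hL _ _) (abs_nonneg s))
    rw [Real.cosh_eq, Real.cosh_eq] at k5
    linarith)
  simp only [Pi.add_apply] at hmono
  rw [integral_add i1 i2, integral_add i3 i4, e1, e2, e3, e4] at hmono
  have h5 : (∫ x, Real.exp (s * γ * x) ∂μ) * ∫ x, Real.exp (-(s * γ) * x) ∂μ ≤
      Real.exp (c * γ ^ 2 * s ^ 2) := by
    calc (∫ x, Real.exp (s * γ * x) ∂μ) * ∫ x, Real.exp (-(s * γ) * x) ∂μ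
        ≤ Real.exp (c * (s * γ) ^ 2 / 2) * Real.exp (c * (-(s * γ)) ^ 2 / 2) := by
          exact mul_le_mul (hM _) (hM _) (hM0 _) (Real.exp_pos _).le
      _ = Real.exp (c * γ ^ 2 * s ^ 2) := by
          rw [← Real.exp_add]; congr 1; ring
  have hAB : A * B ≤ Real.exp (c * γ ^ 2 * s ^ 2) := by linarith
  have e6 : Real.exp (-s * m) * Real.exp (s * m) = 1 := by
    rw [← Real.exp_add]; simp
  calc A = A * (Real.exp (-s * m) * Real.exp (s * m)) := by rw [e6, mul_one]
    _ ≤ A * (B * Real.exp (s * m)) := by gcongr
    _ = A * B * Real.exp (s * m) := by ring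
    _ ≤ Real.exp (c * γ ^ 2 * s ^ 2) * Real.exp (s * m) := by gcongr

lemma upd_meas {V : Type} [DecidableEq V] (b : V) :
    Measurable fun p : (V → ℝ) × ℝ => Function.update p.1 b p.2 := by
  rw [measurable_pi_iff]
  intro a
  by_cases h : a = b
  · subst h
    simp only [Function.update_self]
    exact measurable_snd
  · simp only [Function.update_of_ne h]
    exact (measurable_pi_apply a).comp measurable_fst

/-- resampling one coordinate -/
lemma resample {V : Type} [Countable V] [DecidableEq V] (μ : Measure ℝ) [IsProbabilityMeasure μ]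
    (b : V) : ((Measure.infinitePi fun _ : V => μ).prod μ).map
      (fun p => Function.update p.1 b p.2) = Measure.infinitePi fun _ : V => μ := by
  apply Measure.eq_infinitePi
  intro s t ht
  rw [Measure.map_apply (upd_meas b) (MeasurableSet.pi s.countable_toSet fun i _ => ht i)]
  by_cases hb : b ∈ s
  · have e : (fun p : (V → ℝ) × ℝ => Function.update p.1 b p.2) ⁻¹' Set.pi (s : Set V) t =
        Set.pi ((s.erase b : Finset V) : Set V) t ×ˢ t b := by
      ext p
      simp only [Set.mem_preimage, Set.mem_pi, Finset.mem_coe, Set.mem_prod, Finset.mem_erase]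
      constructor
      · intro h
        refine ⟨fun a ha => ?_, ?_⟩
        · have := h a ha.2
          rwa [Function.update_of_ne ha.1] at this
        · have := h b hb
          rwa [Function.update_self] at this
      · intro h a ha
        by_cases hab : a = b
        · subst hab
          rw [Function.update_self]
          exact h.2
        · rw [Function.update_of_ne hab]
          exact h.1 a ⟨hab, ha⟩
    rw [e, Measure.prod_prod, Measure.infinitePi_pi _ fun i _ => ht i, mul_comm]
    exact Finset.mul_prod_erase s (fun i => μ (t i)) hb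
  · have e : (fun p : (V → ℝ) × ℝ => Function.update p.1 b p.2) ⁻¹' Set.pi (s : Set V) t =
        Set.pi (s : Set V) t ×ˢ Set.univ := by
      ext p
      simp only [Set.mem_preimage, Set.mem_pi, Finset.mem_coe, Set.mem_prod, Set.mem_univ, and_true]
      refine forall_congr' fun a => ?_
      constructor
      · intro h ha
        have hab : a ≠ b := fun hab => hb (hab ▸ ha)
        have := h ha
        rwa [Function.update_of_ne hab] at this
      · intro h ha
        have hab : a ≠ b := fun hab => hb (hab ▸ ha)
        rw [Function.update_of_ne hab]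
        exact h ha
    rw [e, Measure.prod_prod, Measure.infinitePi_pi _ fun i _ => ht i, measure_univ, mul_one]

theorem t_MGF : S_MGF := by
  intro V _ μ _ c hsym hsub S _ g γ hγ hg hodd hlip s
  induction S using Finset.induction_on generalizing g with
  | empty =>
    have h0 : ∀ J, g J = 0 := by
      intro J
      have h1 := hodd J
      simp only [Finset.notMem_empty, if_false] at h1
      linarith
    simp [h0]
  | insert b S hb ih =>
    have hone : ∀ J : V → ℝ, _ := fun J => mgf_one μ c hsub (fun x => g (Function.update J b x))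
      (hg.comp (measurable_update J)) γ hγ (fun x y => by
        have h1 := hlip (Function.update J b x) (Function.update J b y) (fun a ha => by
          have hab : a ≠ b := fun hab => ha (by rw [hab]; exact Finset.mem_insert_self _ _)
          rw [Function.update_of_ne hab, Function.update_of_ne hab])
        rw [Finset.sum_insert hb] at h1
        have h2 : ∑ a ∈ S, |Function.update J b x a - Function.update J b y a| = 0 := by
          refine Finset.sum_eq_zero fun a ha => ?_
          have hab : a ≠ b := fun hab => hb (hab ▸ ha)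
          rw [Function.update_of_ne hab, Function.update_of_ne hab, sub_self, abs_zero]
        rw [h2, add_zero, Function.update_self, Function.update_self] at h1
        exact h1) s
    set m : (V → ℝ) → ℝ := fun J => ∫ x, g (Function.update J b x) ∂μ with hmd
    have hmm : Measurable m := by
      have h1 : StronglyMeasurable fun p : (V → ℝ) × ℝ => g (Function.update p.1 b p.2) :=
        (hg.comp (upd_meas b)).stronglyMeasurable
      exact h1.integral_prod_right'.measurable
    have hmodd : ∀ J, m (fun a => if a ∈ S then -J a else J a) = -m J := by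
      intro J
      simp only [hmd]
      rw [← integral_neg]
      have h1 : ∫ x, g (Function.update (fun a => if a ∈ S then -J a else J a) b x) ∂μ =
          ∫ x, g (Function.update (fun a => if a ∈ S then -J a else J a) b (-x)) ∂μ := by
        have h2 := integral_map (μ := μ) (φ := fun x : ℝ => -x) measurable_neg.aemeasurable
          (f := fun x => g (Function.update (fun a => if a ∈ S then -J a else J a) b x))
          ((hg.comp (measurable_update _)).aestronglyMeasurable)
        rw [hsym] at h2
        exact h2
      rw [h1]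
      refine integral_congr_ae (Eventually.of_forall fun x => ?_)
      simp only
      rw [← hodd]
      congr 1
      funext a
      by_cases hab : a = b
      · subst hab
        simp
      · rw [Function.update_of_ne hab]
        simp only [Finset.mem_insert, hab, false_or, Function.update_of_ne hab]
    have hmlip : ∀ J J' : V → ℝ, (∀ a ∉ S, J a = J' a) →
        |m J - m J'| ≤ γ * ∑ a ∈ S, |J a - J' a| := by
      intro J J' hJ
      simp only [hmd]
      rw [← integral_sub (hone J).1 (hone J').1]
      have h1 : ∀ x, |g (Function.update J b x) - g (Function.update J' b x)| ≤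
          γ * ∑ a ∈ S, |J a - J' a| := by
        intro x
        have h2 := hlip (Function.update J b x) (Function.update J' b x) (fun a ha => by
          have hab : a ≠ b := fun hab => ha (by rw [hab]; exact Finset.mem_insert_self _ _)
          rw [Function.update_of_ne hab, Function.update_of_ne hab]
          exact hJ a fun h => ha (Finset.mem_insert_of_mem h))
        rw [Finset.sum_insert hb, Function.update_self, Function.update_self, sub_self, abs_zero,
          zero_add] at h2
        refine h2.trans (le_of_eq ?_)
        congr 1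
        refine Finset.sum_congr rfl fun a ha => ?_
        have hab : a ≠ b := fun hab => hb (hab ▸ ha)
        rw [Function.update_of_ne hab, Function.update_of_ne hab]
      have h3 := norm_integral_le_of_norm_le_const (μ := μ)
        (f := fun x => g (Function.update J b x) - g (Function.update J' b x))
        (C := γ * ∑ a ∈ S, |J a - J' a|) (Eventually.of_forall fun x => by
          rw [Real.norm_eq_abs]; exact h1 x)
      simp only [Real.norm_eq_abs, probReal_univ, mul_one] at h3
      exact h3
    have hIH := ih m hmm hmodd hmlip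
    rw [Finset.card_insert_of_notMem hb]
    have hF : Measurable fun J : V → ℝ => ENNReal.ofReal (Real.exp (s * g J)) :=
      (Real.measurable_exp.comp (hg.const_mul s)).ennreal_ofReal
    calc ∫⁻ J, ENNReal.ofReal (Real.exp (s * g J)) ∂(Measure.infinitePi fun _ : V => μ)
        = ∫⁻ J, ∫⁻ x, ENNReal.ofReal (Real.exp (s * g (Function.update J b x))) ∂μ
            ∂(Measure.infinitePi fun _ : V => μ) := by
          conv_lhs => rw [← resample μ b]
          rw [lintegral_map hF (upd_meas b), lintegral_prod]
          exact (hF.comp (upd_meas b)).aemeasurable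
      _ ≤ ∫⁻ J, ENNReal.ofReal (Real.exp (c * γ ^ 2 * s ^ 2)) *
            ENNReal.ofReal (Real.exp (s * m J)) ∂(Measure.infinitePi fun _ : V => μ) := by
          refine lintegral_mono fun J => ?_
          obtain ⟨-, h2, h3⟩ := hone J
          rw [← ofReal_integral_eq_lintegral_ofReal h2
            (Eventually.of_forall fun x => (Real.exp_pos _).le),
            ← ENNReal.ofReal_mul (Real.exp_pos _).le]
          exact ENNReal.ofReal_le_ofReal h3
      _ = ENNReal.ofReal (Real.exp (c * γ ^ 2 * s ^ 2)) *
            ∫⁻ J, ENNReal.ofReal (Real.exp (s * m J)) ∂(Measure.infinitePi fun _ : V => μ) := by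
          refine lintegral_const_mul _ ?_
          exact (Real.measurable_exp.comp (hmm.const_mul s)).ennreal_ofReal
      _ ≤ ENNReal.ofReal (Real.exp (c * γ ^ 2 * s ^ 2)) *
            ENNReal.ofReal (Real.exp (c * γ ^ 2 * s ^ 2 * S.card)) := by gcongr
      _ = _ := by
          rw [← ENNReal.ofReal_mul (Real.exp_pos _).le, ← Real.exp_add]
          congr 2
          push_cast
          ring

end Pool.Agent.Q198.SG
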