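import Pool.Agent.Q83.SG.Stm

/-! Project SG (helper83), job NUMER: the numerical series of the chaining argument. -/

set_option autoImplicit false

open Pool.Agent.Q83.SG

namespace Pool.Agent.Q198.SG

lemma num_term (C a : ℝ) (M : ℕ) (ha : a ^ 2 = 6 * (4 * C + 257 * M)) (hC : 1 ≤ C) (n l : ℕ)
    (hn : 2 ≤ n) (hl : 4 ^ l ≤ 128 * n) :
    Real.exp ((4 * C * (l + 1) - a ^ 2 * (l + 1) ^ 2 / 6) * (n : ℝ) / 4 ^ l) ≤ ((n : ℝ) ^ M)⁻¹ := by
  have hn0 : (0 : ℝ) < n := by exact_mod_cast (by omega : 0 < n)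
  have h4 : (0 : ℝ) < 4 ^ l := by positivity
  set y : ℝ := (n : ℝ) / 4 ^ l with hy
  have hy0 : 0 < y := by positivity
  have hy1 : 1 ≤ 128 * y := by
    have : (4 : ℝ) ^ l ≤ 128 * n := by exact_mod_cast hl
    rw [hy, mul_div_assoc', le_div_iff₀ h4, one_mul]
    exact this
  have hlog : Real.log n = Real.log y + l * Real.log 4 := by
    have e : (n : ℝ) = y * 4 ^ l := by rw [hy]; field_simp
    conv_lhs => rw [e]
    rw [Real.log_mul hy0.ne' h4.ne', Real.log_pow]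
  have hlog4 : Real.log 4 ≤ 2 := by
    have h := Real.log_two_lt_d9
    have e : (4 : ℝ) = 2 ^ 2 := by norm_num
    rw [e, Real.log_pow]
    push_cast
    linarith
  have hlogy : Real.log y ≤ y := by
    have := Real.log_le_sub_one_of_pos hy0
    linarith
  have hl0 : (0 : ℝ) ≤ l := Nat.cast_nonneg _
  have hbd : Real.log n ≤ 257 * (l + 1) ^ 2 * y := by
    rw [hlog]
    have h1 : (l : ℝ) * Real.log 4 ≤ 256 * l * y := by
      have h2 : (l : ℝ) * Real.log 4 ≤ l * 2 := by gcongr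
      nlinarith
    nlinarith [mul_nonneg hl0 hy0.le, mul_nonneg (mul_nonneg hl0 hl0) hy0.le]
  have e1 : (4 * C * (l + 1) - a ^ 2 * (l + 1) ^ 2 / 6) * (n : ℝ) / 4 ^ l =
      (4 * C * (l + 1) - a ^ 2 * (l + 1) ^ 2 / 6) * y := by rw [hy]; ring
  have e2 : ((n : ℝ) ^ M)⁻¹ = Real.exp (-(M * Real.log n)) := by
    rw [Real.exp_neg, Real.exp_nat_mul, Real.exp_log hn0]
  rw [e1, e2]
  refine Real.exp_le_exp.2 ?_
  have e3 : (4 * C * (l + 1) - a ^ 2 * (l + 1) ^ 2 / 6) * y =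
      -(4 * C * (l + 1) * l * y) - M * (257 * (l + 1) ^ 2 * y) := by
    rw [ha]; ring
  rw [e3]
  have h5 : (M : ℝ) * Real.log n ≤ M * (257 * (l + 1) ^ 2 * y) := by gcongr
  have h6 : 0 ≤ 4 * C * (l + 1) * l * y := by positivity
  linarith

theorem t_NUMER : S_NUMER := by
  intro C ε hC hε
  have hsum : Summable fun N : ℕ => 1 / ((N : ℝ) + 2) ^ 2 := by
    have h := (Real.summable_one_div_nat_pow (p := 2)).2 (by norm_num)
    have h2 := (summable_nat_add_iff 2).2 h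
    refine h2.congr fun N => ?_
    push_cast
    rfl
  set S := ∑' N : ℕ, 1 / ((N : ℝ) + 2) ^ 2 with hS
  have hS0 : 0 ≤ S := tsum_nonneg fun N => by positivity
  obtain ⟨M', hM'⟩ := exists_pow_lt_of_lt_one (y := (1 / 2 : ℝ))
    (show 0 < ε / (768 * C ^ 2 * S + 1) by positivity) (by norm_num)
  have hM2 : 768 * C ^ 2 * (1 / 2) ^ M' * S ≤ ε := by
    rw [lt_div_iff₀ (by positivity)] at hM'
    have : (0 : ℝ) < (1 / 2) ^ M' := by positivity
    nlinarith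
  refine ⟨Real.sqrt (6 * (4 * C + 257 * ((20 + M' : ℕ) : ℝ))), Real.sqrt_pos.2 (by positivity), ?_⟩
  set a := Real.sqrt (6 * (4 * C + 257 * ((20 + M' : ℕ) : ℝ))) with ha
  have ha2 : a ^ 2 = 6 * (4 * C + 257 * ((20 + M' : ℕ) : ℝ)) := Real.sq_sqrt (by positivity)
  have hterm : ∀ N : ℕ, (∑ l ∈ (Finset.range (N + 2 + 10)).filter fun l => 4 ^ l ≤ 128 * (N + 2),
      ENNReal.ofReal (2 * C ^ 2 * ((N : ℝ) + 2 + 1) ^ 6 *
        Real.exp ((4 * C * (l + 1) - a ^ 2 * (l + 1) ^ 2 / 6) * ((N : ℝ) + 2) / 4 ^ l))) ≤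
      ENNReal.ofReal (768 * C ^ 2 * (1 / 2) ^ M' * (1 / ((N : ℝ) + 2) ^ 2)) := by
    intro N
    set n : ℝ := (N : ℝ) + 2 with hn
    have hn2 : 2 ≤ n := by rw [hn]; have : (0 : ℝ) ≤ N := Nat.cast_nonneg _; linarith
    have h1 : ∀ l ∈ (Finset.range (N + 2 + 10)).filter fun l => 4 ^ l ≤ 128 * (N + 2),
        ENNReal.ofReal (2 * C ^ 2 * (n + 1) ^ 6 *
        Real.exp ((4 * C * (l + 1) - a ^ 2 * (l + 1) ^ 2 / 6) * n / 4 ^ l)) ≤
        ENNReal.ofReal (2 * C ^ 2 * (n + 1) ^ 6 * (n ^ (20 + M'))⁻¹) := by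
      intro l hl
      have h2 := num_term C a (20 + M') ha2 hC (N + 2) l (by omega) (Finset.mem_filter.1 hl).2
      push_cast at h2
      refine ENNReal.ofReal_le_ofReal ?_
      rw [← hn] at h2
      gcongr
    refine (Finset.sum_le_sum h1).trans ?_
    rw [Finset.sum_const, nsmul_eq_mul]
    have h3 : (((Finset.range (N + 2 + 10)).filter fun l => 4 ^ l ≤ 128 * (N + 2)).card : ENNReal) ≤
        ENNReal.ofReal (6 * n) := by
      have h4 : ((Finset.range (N + 2 + 10)).filter fun l => 4 ^ l ≤ 128 * (N + 2)).card ≤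
          N + 12 := by
        refine (Finset.card_filter_le _ _).trans ?_
        rw [Finset.card_range]
      calc (((Finset.range (N + 2 + 10)).filter fun l => 4 ^ l ≤ 128 * (N + 2)).card : ENNReal)
          ≤ ((N + 12 : ℕ) : ENNReal) := by exact_mod_cast h4
        _ = ENNReal.ofReal ((N + 12 : ℕ) : ℝ) := (ENNReal.ofReal_natCast _).symm
        _ ≤ _ := by
          refine ENNReal.ofReal_le_ofReal ?_
          push_cast
          rw [hn]
          have : (0 : ℝ) ≤ N := Nat.cast_nonneg _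
          linarith
    refine (mul_le_mul' h3 le_rfl).trans ?_
    rw [← ENNReal.ofReal_mul (by positivity)]
    refine ENNReal.ofReal_le_ofReal ?_
    have h5 : (n + 1) ^ 6 ≤ 64 * n ^ 6 := by
      have : (n + 1) ^ 6 ≤ (2 * n) ^ 6 := by gcongr; linarith
      calc (n + 1) ^ 6 ≤ (2 * n) ^ 6 := this
        _ = 64 * n ^ 6 := by ring
    have h6 : (n ^ (20 + M'))⁻¹ ≤ (1 / 2) ^ M' * (n ^ 20)⁻¹ := by
      rw [pow_add, mul_inv, mul_comm, one_div, inv_pow]
      gcongr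
    have h7 : 6 * n * (2 * C ^ 2 * (n + 1) ^ 6 * (n ^ (20 + M'))⁻¹) ≤
        6 * n * (2 * C ^ 2 * (64 * n ^ 6) * ((1 / 2) ^ M' * (n ^ 20)⁻¹)) := by gcongr
    refine h7.trans ?_
    have h8 : n * n ^ 6 * (n ^ 20)⁻¹ ≤ 1 / n ^ 2 := by
      rw [mul_inv_le_iff₀ (by positivity), one_div, inv_mul_eq_div, le_div_iff₀ (by positivity)]
      have e : n * n ^ 6 * n ^ 2 = n ^ 9 := by ring
      rw [e]
      exact pow_le_pow_right₀ (by linarith) (by norm_num)
    calc 6 * n * (2 * C ^ 2 * (64 * n ^ 6) * ((1 / 2) ^ M' * (n ^ 20)⁻¹))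
        = 768 * C ^ 2 * (1 / 2) ^ M' * (n * n ^ 6 * (n ^ 20)⁻¹) := by ring
      _ ≤ 768 * C ^ 2 * (1 / 2) ^ M' * (1 / n ^ 2) := by gcongr
  refine (ENNReal.tsum_le_tsum hterm).trans ?_
  rw [← ENNReal.ofReal_tsum_of_nonneg (fun N => by positivity) (hsum.mul_left _), tsum_mul_left]
  exact ENNReal.ofReal_le_ofReal hM2

end Pool.Agent.Q198.SG
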