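import Pool.Agent.Q83.SG.Stm

/-! Project SG (helper83), job TAIL: tails of the differences under changes of sign. -/

set_option autoImplicit false

open MeasureTheory ProbabilityTheory Filter
open scoped ENNReal NNReal
open Pool.Agent.Q83.SG

namespace Pool.Agent.Q198.SG

/-- the bonds of `vert` as a finite set -/
noncomputable def vf {m : ℕ} (h : Fin m → ℤ) (D : Finset Pt) : Finset (Bond m) :=
  open Classical in
  (D ×ˢ (Finset.univ : Finset (Fin m))).biUnion fun p =>
    {((p.1, h), Sum.inr p.2), ((p.1, h - Pi.single p.2 1), Sum.inr p.2)}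

lemma mem_vf {m : ℕ} (h : Fin m → ℤ) (D : Finset Pt) (b : Bond m) : b ∈ vf h D ↔ b ∈ vert h D := by
  classical
  obtain ⟨⟨x, y⟩, a⟩ := b
  simp only [vf, vert, Finset.mem_biUnion, Finset.mem_product, Finset.mem_univ, and_true,
    Finset.mem_insert, Finset.mem_singleton, Set.mem_setOf_eq, Prod.mk.injEq, Prod.exists]
  constructor
  · rintro ⟨x', j, hx', (⟨⟨rfl, rfl⟩, rfl⟩ | ⟨⟨rfl, rfl⟩, rfl⟩)⟩
    · exact ⟨rfl, hx', Or.inl rfl⟩
    · refine ⟨rfl, hx', Or.inr ?_⟩
      simp [far, dir]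
  · rintro ⟨ha, hx, hy⟩
    obtain ⟨j, rfl⟩ := Sum.isRight_iff.1 ha
    refine ⟨x, j, hx, ?_⟩
    rcases hy with hy | hy
    · left
      exact ⟨⟨rfl, hy⟩, rfl⟩
    · right
      refine ⟨⟨rfl, ?_⟩, rfl⟩
      simp only [far, dir, Prod.snd_add] at hy
      rw [← hy]
      simp

lemma card_vf {m : ℕ} (h : Fin m → ℤ) (D : Finset Pt) : (vf h D).card ≤ D.card * m * 2 := by
  classical
  unfold vf
  refine (Finset.card_biUnion_le_card_mul _ _ 2 fun p _ => Finset.card_le_two).trans ?_
  rw [Finset.card_product, Finset.card_univ, Fintype.card_fin]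

lemma flip_flip {m : ℕ} (h : Fin m → ℤ) (A B : Finset Pt) (J : Bond m → ℝ) :
    flipAt (vert h A) (flipAt (vert h (symmDiff A B)) J) = flipAt (vert h B) J := by
  classical
  funext b
  simp only [flipAt, vert, Set.mem_setOf_eq, Finset.mem_symmDiff]
  by_cases h1 : b.1.1 ∈ A <;> by_cases h2 : b.1.1 ∈ B <;>
    by_cases h3 : b.2.isRight = true <;> by_cases h4 : b.1.2 = h ∨ (far b).2 = h <;>
    simp [h1, h2, h3, h4]

lemma flip_left {m : ℕ} (h : Fin m → ℤ) (A : Finset Pt) (J J' : Bond m → ℝ)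
    (hJ : ∀ b, b.2.isLeft → J b = J' b) (b : Bond m) (hb : b.2.isLeft) :
    flipAt (vert h A) J b = flipAt (vert h A) J' b := by
  classical
  unfold flipAt
  rw [hJ b hb]

lemma flip_abs {m : ℕ} (h : Fin m → ℤ) (A : Finset Pt) (J J' : Bond m → ℝ) (b : Bond m) :
    |flipAt (vert h A) J b - flipAt (vert h A) J' b| = |J b - J' b| := by
  classical
  unfold flipAt
  split_ifs
  · rw [← abs_neg]; congr 1; ring
  · rfl

lemma flip_meas {m : ℕ} (h : Fin m → ℤ) (A : Finset Pt) :
    Measurable (flipAt (vert h A) : (Bond m → ℝ) → Bond m → ℝ) := by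
  classical
  rw [measurable_pi_iff]
  intro b
  unfold flipAt
  split_ifs
  · exact (measurable_pi_apply b).neg
  · exact measurable_pi_apply b

/-- one sided bound by the exponential Markov inequality -/
lemma markov {Ω : Type} [MeasurableSpace Ω] (P : Measure Ω) (g : Ω → ℝ) (hg : Measurable g)
    (t s M : ℝ) (hs : 0 ≤ s) (h : ∫⁻ J, ENNReal.ofReal (Real.exp (s * g J)) ∂P ≤
      ENNReal.ofReal (Real.exp M)) :
    P {J | t ≤ g J} ≤ ENNReal.ofReal (Real.exp (M - s * t)) := by
  have hm : Measurable fun J => ENNReal.ofReal (Real.exp (s * g J)) :=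
    (Real.measurable_exp.comp (hg.const_mul s)).ennreal_ofReal
  have h1 := mul_meas_ge_le_lintegral (μ := P) hm (ENNReal.ofReal (Real.exp (s * t)))
  have h2 : P {J | t ≤ g J} ≤ P {J | ENNReal.ofReal (Real.exp (s * t)) ≤
      ENNReal.ofReal (Real.exp (s * g J))} := by
    refine measure_mono fun J hJ => ?_
    exact ENNReal.ofReal_le_ofReal (Real.exp_le_exp.2 (mul_le_mul_of_nonneg_left hJ hs))
  have h3 : ENNReal.ofReal (Real.exp (s * t)) * P {J | t ≤ g J} ≤ ENNReal.ofReal (Real.exp M) :=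
    (mul_le_mul' le_rfl h2).trans (h1.trans h)
  have e : ENNReal.ofReal (Real.exp (M - s * t)) =
      ENNReal.ofReal (Real.exp M) / ENNReal.ofReal (Real.exp (s * t)) := by
    rw [← ENNReal.ofReal_div_of_pos (Real.exp_pos _), ← Real.exp_sub]
  rw [e, ENNReal.le_div_iff_mul_le (Or.inl (ENNReal.ofReal_pos.2 (Real.exp_pos _)).ne')
    (Or.inl ENNReal.ofReal_ne_top), mul_comm]
  exact h3

theorem t_TAIL (hM : S_MGF) : S_TAIL := by
  intro m c
  refine ⟨Real.sqrt (32 * (c + 1) * (m + 1)), Real.sqrt_pos.2 (by positivity), ?_⟩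
  intro μ _ hsym hsub Φ B₀ κ₀ hκ₀ hΦ hlip h
  classical
  refine ⟨fun ω => ?_, ?_⟩
  · have e : flipAt (vert h (∅ : Finset Pt)) ω = ω := by
      funext b
      simp [flipAt, vert]
    simp only [e, sub_self]
  intro A B t ht
  set n : ℕ := (symmDiff A B).card with hn
  rcases Nat.eq_zero_or_pos n with hn0 | hn0
  · rw [hn0]
    simp only [Nat.cast_zero, mul_zero, div_zero, Real.exp_zero, mul_one]
    refine prob_le_one.trans ?_
    rw [← ENNReal.ofReal_one]
    exact ENNReal.ofReal_le_ofReal (by norm_num)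
  have hnR : (0 : ℝ) < n := by exact_mod_cast hn0
  set g : (Bond m → ℝ) → ℝ := fun J => Φ (flipAt (vert h B) J) - Φ (flipAt (vert h A) J) with hg
  have hgm : Measurable g := (hΦ.comp (flip_meas h B)).sub (hΦ.comp (flip_meas h A))
  set S : Finset (Bond m) := vf h (symmDiff A B) with hS
  have hfl : ∀ J : Bond m → ℝ, (fun b => if b ∈ S then -J b else J b) =
      flipAt (vert h (symmDiff A B)) J := by
    intro J
    funext b
    simp only [flipAt, ← mem_vf, hS]
  have hodd : ∀ J, g (fun b => if b ∈ S then -J b else J b) = -g J := by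
    intro J
    rw [hfl]
    simp only [hg]
    rw [flip_flip h A B J]
    have e := flip_flip h B A J
    rw [symmDiff_comm] at e
    rw [e]
    ring
  have hlip2 : ∀ J J' : Bond m → ℝ, (∀ b ∉ S, J b = J' b) →
      |g J - g J'| ≤ 2 * κ₀ * ∑ b ∈ S, |J b - J' b| := by
    intro J J' hJ
    have hleft : ∀ b : Bond m, b.2.isLeft → J b = J' b := by
      intro b hb
      refine hJ b fun hbS => ?_
      rw [hS, mem_vf] at hbS
      have := hbS.1
      rcases hb2 : b.2 with i | j
      · rw [hb2] at this; simp at this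
      · rw [hb2] at hb; simp at hb
    have hsum : ∑ b ∈ B₀, |J b - J' b| ≤ ∑ b ∈ S, |J b - J' b| := by
      calc ∑ b ∈ B₀, |J b - J' b| = ∑ b ∈ B₀.filter (fun b => b ∈ S), |J b - J' b| := by
            symm
            refine Finset.sum_filter_of_ne fun b _ hb => ?_
            by_contra hbS
            exact hb (by rw [hJ b hbS, sub_self, abs_zero])
        _ ≤ ∑ b ∈ S, |J b - J' b| :=
            Finset.sum_le_sum_of_subset_of_nonneg (fun b hb => (Finset.mem_filter.1 hb).2)
              fun b _ _ => abs_nonneg _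
    have h1 := hlip (flipAt (vert h B) J) (flipAt (vert h B) J') (flip_left h B J J' hleft)
    have h2 := hlip (flipAt (vert h A) J) (flipAt (vert h A) J') (flip_left h A J J' hleft)
    simp only [flip_abs] at h1 h2
    have h3 := mul_le_mul_of_nonneg_left hsum hκ₀.le
    have e : g J - g J' = (Φ (flipAt (vert h B) J) - Φ (flipAt (vert h B) J')) -
        (Φ (flipAt (vert h A) J) - Φ (flipAt (vert h A) J')) := by
      simp only [hg]; ring
    rw [e]
    refine (abs_sub _ _).trans ?_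
    linarith
  have hcard : (S.card : ℝ) ≤ 2 * (m + 1) * n := by
    have h1 := card_vf h (symmDiff A B)
    have h2 : (S.card : ℝ) ≤ n * m * 2 := by exact_mod_cast h1
    nlinarith
  have hmgf : ∀ s : ℝ, ∫⁻ J, ENNReal.ofReal (Real.exp (s * g J)) ∂(law m μ) ≤
      ENNReal.ofReal (Real.exp (8 * (c + 1) * (m + 1) * κ₀ ^ 2 * n * s ^ 2)) := by
    intro s
    refine (hM (Bond m) μ c hsym hsub S g (2 * κ₀) (by positivity) hgm hodd hlip2 s).trans ?_
    refine ENNReal.ofReal_le_ofReal (Real.exp_le_exp.2 ?_)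
    have h1 : (c : ℝ) * (2 * κ₀) ^ 2 * s ^ 2 * S.card ≤
        (c + 1) * (2 * κ₀) ^ 2 * s ^ 2 * (2 * (m + 1) * n) := by
      gcongr
      linarith
    refine h1.trans (le_of_eq ?_)
    ring
  set K : ℝ := (c + 1) * (m + 1) * κ₀ ^ 2 with hK
  have hK0 : 0 < K := by positivity
  set s : ℝ := t / (16 * K * n) with hs
  have hs0 : 0 < s := by positivity
  have hexp : 8 * (c + 1) * (m + 1) * κ₀ ^ 2 * n * s ^ 2 - s * t = -t ^ 2 / (32 * K * n) := by
    have e : 8 * (c + 1) * (m + 1) * κ₀ ^ 2 * n * s ^ 2 = 8 * K * n * s ^ 2 := by rw [hK]; ring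
    rw [e, hs]
    field_simp
    ring
  have b1 := markov (law m μ) g hgm t s _ hs0.le (hmgf s)
  have b2 := markov (law m μ) (fun J => -g J) hgm.neg t s
    (8 * (c + 1) * (m + 1) * κ₀ ^ 2 * n * s ^ 2) hs0.le (by
      have h1 := hmgf (-s)
      rw [neg_sq] at h1
      refine le_trans (le_of_eq ?_) h1
      refine lintegral_congr fun J => ?_
      congr 2
      ring)
  rw [hexp] at b1 b2
  have hset : {ω : Bond m → ℝ | t ≤ |(Φ ω - Φ (flipAt (vert h A) ω)) -
      (Φ ω - Φ (flipAt (vert h B) ω))|} ⊆ {J | t ≤ g J} ∪ {J | t ≤ -g J} := by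
    intro J hJ
    simp only [Set.mem_setOf_eq] at hJ
    have e : (Φ J - Φ (flipAt (vert h A) J)) - (Φ J - Φ (flipAt (vert h B) J)) = g J := by
      simp only [hg]; ring
    rw [e] at hJ
    exact le_abs.1 hJ
  refine (measure_mono hset).trans ((measure_union_le _ _).trans ((add_le_add b1 b2).trans ?_))
  rw [← ENNReal.ofReal_add (Real.exp_pos _).le (Real.exp_pos _).le]
  refine ENNReal.ofReal_le_ofReal (le_of_eq ?_)
  have e : (κ₀ * Real.sqrt (32 * (c + 1) * (m + 1))) ^ 2 = 32 * K := by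
    rw [mul_pow, Real.sq_sqrt (by positivity), hK]; ring
  rw [e]
  ring

end Pool.Agent.Q198.SG
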