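import Pool.Agent.Q83.SG.Stm

/-! Project SG (helper83), job VISIT: the coarse contour is visited by a short walk. -/

set_option autoImplicit false

open Pool.Agent.Q83.SG

namespace Pool.Agent.Q198.SG

lemma div_bound (p x : ℤ) (hp : 0 < p) : p * (x / p) ≤ x ∧ x < p * (x / p) + p := by
  have h1 := Int.mul_ediv_add_emod x p
  have h2 := Int.emod_nonneg x hp.ne'
  have h3 := Int.emod_lt_of_pos x hp
  constructor <;> linarith

lemma idx_cube {l : ℕ} {x z : Pt} (h : x ∈ cube l z) : idx l x = z := by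
  funext i
  have h1 := Fintype.mem_piFinset.1 h i
  rw [Finset.mem_Ico] at h1
  have hp : (0 : ℤ) < 2 ^ l := by positivity
  have h2 := div_bound (2 ^ l) (x i) hp
  simp only [idx]
  set q := x i / 2 ^ l
  have h3 : 2 ^ l * (q - z i) < (2 ^ l : ℤ) * 1 := by linarith [h1.1, h1.2, h2.1, h2.2]
  have h4 : 2 ^ l * (z i - q) < (2 ^ l : ℤ) * 1 := by linarith [h1.1, h1.2, h2.1, h2.2]
  have h5 := lt_of_mul_lt_mul_left h3 hp.le
  have h6 := lt_of_mul_lt_mul_left h4 hp.le
  omega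

lemma idx_step {l : ℕ} (x y : ℤ) (d : ℤ) (h : |x - y| ≤ d) :
    (2 ^ l : ℤ) * |x / 2 ^ l - y / 2 ^ l| ≤ d + 2 ^ l := by
  have hp : (0 : ℤ) < 2 ^ l := by positivity
  have h1 := div_bound (2 ^ l) x hp
  have h2 := div_bound (2 ^ l) y hp
  have h3 := abs_le.1 h
  rcases abs_cases (x / 2 ^ l - y / 2 ^ l) with ⟨h4, -⟩ | ⟨h4, -⟩ <;> rw [h4] <;>
    nlinarith [h1.1, h1.2, h2.1, h2.2, h3.1, h3.2]

lemma walk_dist (ω : ℕ → Ed) (h : ∀ t, Near (ω t) (ω (t + 1))) (t k : ℕ) (i : Fin 3) :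
    |(ω (t + k)).1 i - (ω t).1 i| ≤ (k : ℤ) := by
  induction k with
  | zero => simp
  | succ k ih =>
    have h1 := h (t + k) i
    have h2 := abs_sub_le ((ω (t + (k + 1))).1 i) ((ω (t + k)).1 i) ((ω t).1 i)
    push_cast
    have e : t + k + 1 = t + (k + 1) := by ring
    rw [e, abs_sub_comm] at h1
    linarith

/-- the list is short -/
lemma jump_bound (l : ℕ) (ω : ℕ → Ed) (h : ∀ t, Near (ω t) (ω (t + 1))) (τ : Ed → ℕ) (T : ℕ)
    (w : List Ed) (hs : w.Pairwise fun a b => τ a ≤ τ b)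
    (hc : ∀ c ∈ w, τ c ≤ T ∧ ∑ i, |c.1 i - idx l (ω (τ c)).1 i| ≤ 1) :
    ∀ (t0 : ℕ) (s : Pt), t0 ≤ T → (∀ c ∈ w, t0 ≤ τ c) →
      ∑ i, |s i - idx l (ω t0).1 i| ≤ 1 →
      (2 ^ l : ℤ) * jump s w ≤ 3 * (T - t0) + 5 * 2 ^ l * w.length := by
  induction w with
  | nil =>
    intro t0 s ht0 _ _
    simp only [jump, List.length_nil]
    have : (t0 : ℤ) ≤ T := by exact_mod_cast ht0
    push_cast
    linarith
  | cons c w ih =>
    intro t0 s ht0 hmin hsd
    rw [List.pairwise_cons] at hs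
    have hc1 := hc c List.mem_cons_self
    have hIH := ih hs.2 (fun a ha => hc a (List.mem_cons_of_mem _ ha)) (τ c) c.1 hc1.1
      (fun a ha => hs.1 a ha) hc1.2
    have hle : t0 ≤ τ c := hmin c List.mem_cons_self
    obtain ⟨k, hk⟩ := Nat.exists_eq_add_of_le hle
    simp only [jump, List.length_cons]
    push_cast
    have hp : (0 : ℤ) < 2 ^ l := by positivity
    have hstep : (2 ^ l : ℤ) * ∑ i, |c.1 i - s i| ≤ 3 * k + 5 * 2 ^ l := by
      have h1 : ∀ i : Fin 3, |c.1 i - s i| ≤ |c.1 i - idx l (ω (τ c)).1 i| +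
          |idx l (ω (τ c)).1 i - idx l (ω t0).1 i| + |s i - idx l (ω t0).1 i| := by
        intro i
        have h2 := abs_sub_le (c.1 i) (idx l (ω (τ c)).1 i) (s i)
        have h3 := abs_sub_le (idx l (ω (τ c)).1 i) (idx l (ω t0).1 i) (s i)
        rw [abs_sub_comm (idx l (ω t0).1 i)] at h3
        linarith
      have h4 : ∑ i : Fin 3, |c.1 i - s i| ≤ ∑ i : Fin 3, |c.1 i - idx l (ω (τ c)).1 i| +
          ∑ i : Fin 3, |idx l (ω (τ c)).1 i - idx l (ω t0).1 i| +
          ∑ i : Fin 3, |s i - idx l (ω t0).1 i| := by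
        rw [← Finset.sum_add_distrib, ← Finset.sum_add_distrib]
        exact Finset.sum_le_sum fun i _ => h1 i
      have h5 : ∀ i : Fin 3, (2 ^ l : ℤ) * |idx l (ω (τ c)).1 i - idx l (ω t0).1 i| ≤
          k + 2 ^ l := by
        intro i
        have h6 := walk_dist ω h t0 k i
        rw [← hk] at h6
        exact idx_step _ _ _ h6
      have h7 : (2 ^ l : ℤ) * ∑ i : Fin 3, |idx l (ω (τ c)).1 i - idx l (ω t0).1 i| ≤
          3 * (k + 2 ^ l) := by
        rw [Finset.mul_sum]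
        refine (Finset.sum_le_sum fun i _ => h5 i).trans ?_
        simp
      have h8 := hc1.2
      nlinarith
    have hkz : ((τ c : ℕ) : ℤ) = t0 + k := by exact_mod_cast hk
    rw [mul_add]
    have h9 : (2 ^ l : ℤ) * ∑ i, |c.1 i - s i| + 2 ^ l * (jump c.1 w : ℤ) ≤
        3 * k + 5 * 2 ^ l + (3 * (T - τ c) + 5 * 2 ^ l * w.length) := add_le_add hstep hIH
    refine h9.trans (le_of_eq ?_)
    rw [hkz]
    ring

theorem t_VISIT (h1 : S_COARSE) (h2 : S_WALK) (h3 : S_START) : S_VISIT := by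
  intro D l hD
  classical
  obtain ⟨j, hj, hja⟩ := h3 D hD
  obtain ⟨ω, hω0, hω, hωE⟩ := h2 (bd D) hD.2 _ hja
  have hchoice : ∀ c : Ed, ∃ t : ℕ, c ∈ bd (maj l D) → t ≤ 2 * (bd D).card ∧
      ∑ i, |c.1 i - idx l (ω t).1 i| ≤ 1 := by
    intro c
    by_cases hc : c ∈ bd (maj l D)
    swap
    · exact ⟨0, fun h => absurd h hc⟩
    have h4 := (h1 l D).1 c hc
    have h5 : ((bd D).filter fun e =>
        e.1 ∈ cube l c.1 ∪ cube l (c.1 + un c.2) ∧
        e.1 + un e.2 ∈ cube l c.1 ∪ cube l (c.1 + un c.2)).Nonempty := by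
      rw [← Finset.card_pos]
      have : 0 < 3 * 4 ^ l := by positivity
      omega
    obtain ⟨e, he⟩ := h5
    rw [Finset.mem_filter] at he
    obtain ⟨t, ht, hte⟩ := hωE e he.1
    refine ⟨t, fun _ => ⟨ht, ?_⟩⟩
    rw [hte]
    rcases Finset.mem_union.1 he.2.1 with h6 | h6
    · rw [idx_cube h6]
      simp
    · rw [idx_cube h6]
      have h7 : ∀ i : Fin 3, |c.1 i - (c.1 + un c.2) i| = if i = c.2 then 1 else 0 := by
        intro i
        simp only [Pi.add_apply, un]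
        by_cases hi : i = c.2
        · subst hi
          simp
        · rw [Pi.single_eq_of_ne hi, if_neg hi]
          simp
      simp only [h7]
      simp
  choose τ hτ using hchoice
  set r : Ed → Ed → Prop := fun a b => τ a ≤ τ b with hr
  have : Std.Total r := ⟨fun a b => le_total (τ a) (τ b)⟩
  have : IsTrans Ed r := ⟨fun a b c hab hbc => le_trans hab hbc⟩
  set w := (bd (maj l D)).toList.insertionSort r with hw
  have hperm : w.Perm (bd (maj l D)).toList := List.perm_insertionSort r _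
  have hmem : ∀ c ∈ w, c ∈ bd (maj l D) := fun c hc =>
    Finset.mem_toList.1 (hperm.mem_iff.1 hc)
  refine ⟨j, w, hj, ?_, ?_, ?_⟩
  · rw [List.toFinset_eq_of_perm _ _ hperm, Finset.toList_toFinset]
  · rw [hperm.length_eq, Finset.length_toList]
  · have h8 := jump_bound l ω (fun t => (hω t).2) τ (2 * (bd D).card) w
      (List.pairwise_insertionSort r _) (fun c hc => hτ c (hmem c hc)) 0
      (idx l (Pi.single 0 (j : ℤ))) (Nat.zero_le _) (fun c _ => Nat.zero_le _) (by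
        rw [hω0]
        simp)
    have h9 : ((2 ^ l * jump (idx l (Pi.single 0 (j : ℤ))) w : ℕ) : ℤ) ≤
        ((6 * (bd D).card + 9 * 2 ^ l * w.length : ℕ) : ℤ) := by
      push_cast
      push_cast at h8
      have h10 : (0 : ℤ) ≤ 2 ^ l * w.length := by positivity
      linarith
    exact_mod_cast h9

end Pool.Agent.Q198.SG
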